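import Pool.Agent.A856.BH.Fin3R
import Pool.Agent.W164.RC.Bad

/-!
# The zeros of bounded height of `L(E/K, s)` for the ray class fields `K` of `ℚ(i)`

`E_D : y² = x³ - D x`, `D` a non-zero integer (these are, up to isomorphism, the elliptic curves over
`ℚ` with `j = 1728`), and `K` is a ray class field of `ℚ(i)` whose modulus `q` is divisible by
`2 + 2i` and which contains a fourth root of `D` (for `D = 1`, every such ray class field).

We prove for every single field `K` that at least 67.25 per cent of the zeros of `L(E_D/K, s)` with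
`|Im s| ≤ T` are on the line `Re s = 1`, for all `T` between `C (1 + √(log (N(q)/[K : ℚ(i)])))` and
`N(q)^η`, with absolute constants `C` and `η > 0`.  Here `[K : ℚ(i)] = φ(q)/4`, so the lower limit is a
constant if `[K : ℚ(i)] ≥ κ N(q)`, and it is `O(√(log log log N(q)))` for all `q`.  Nothing is
assumed; the continuation of `L(E_D/K, s)` is part of the result.

Proof.  As in `RayClassFields6725.lean` (where `T ≥ C √(log N(q))` is needed), `L(E_D/K, s)` is the
product of the L-functions of all the Hecke characters `ψ_E χ`, `χ` a ray class character modulo `q`,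
and of the conjugates.  The lower limit for `T` there comes from the zeros near the end points of the
interval, at a distance up to `√(log N(q))`, whose contribution to the explicit formula was bounded
trivially.  Here the inequality between the sums over the zeros is proved with the zeros far from the
interval left out (a variant of the trace inequality, `Pool/Agent/A856/BH/TraceW2.lean`); the
contribution of those which are not too far from the critical line is exponentially small in their
distance from the interval, and the number of the other ones is bounded, on the average over the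
characters, by Selberg's density theorem for this family (`Pool/Agent/A856/SE`), so that only the
zeros at a bounded distance from the end points are lost.
-/

set_option autoImplicit false

open Complex NumberField IsDedekindDomain

namespace Pool.Agent.Results.MP_fb225e_nt.LowZeros6725

/-- `K` is the ray class field of `ℚ(i)` of modulus `q`: `ι` embeds `ℤ[i]` into the ring of integers
of `K`, and `art` is the Artin map, a homomorphism from `(ℤ[i]/q)ˣ` to the group of automorphisms of
the ring of integers of `K` (equivalently of `K`) such that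
* `ℤ[i]` is the ring of invariants (so `K/ℚ(i)` is Galois and its group is the image of `art`),
* the kernel consists of the classes of the units of `ℤ[i]` (so the Galois group is the ray class
  group modulo `q`),
* `K/ℚ(i)` is unramified outside `q`: the inertia group at every prime `v` of `K` not dividing `q`
  is trivial,
* for every prime `π` of `ℤ[i]` not dividing `q`, `art π` is the Frobenius automorphism
  `x ↦ x ^ N(π)` at all primes `v` of `K` above `π`. -/
structure IsRayClassField (q : GaussianInt) (K : Type) [Field K] [NumberField K]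
    (ι : GaussianInt →+* 𝓞 K)
    (art : (GaussianInt ⧸ Ideal.span {q})ˣ →* (𝓞 K ≃+* 𝓞 K)) : Prop where
  invariants : ∀ x : 𝓞 K, (∀ u, art u x = x) ↔ x ∈ ι.range
  kernel : ∀ u : (GaussianInt ⧸ Ideal.span {q})ˣ, art u = 1 ↔
    ∃ e : GaussianIntˣ, (u : GaussianInt ⧸ Ideal.span {q}) = Ideal.Quotient.mk _ (e : GaussianInt)
  unramified : ∀ v : HeightOneSpectrum (𝓞 K), ι q ∉ v.asIdeal →
    ∀ u, (∀ x, art u x - x ∈ v.asIdeal) → art u = 1
  frobenius : ∀ π : GaussianInt, Prime π → ∀ u : (GaussianInt ⧸ Ideal.span {q})ˣ,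
    (u : GaussianInt ⧸ Ideal.span {q}) = Ideal.Quotient.mk _ π →
    ∀ v : HeightOneSpectrum (𝓞 K), ι π ∈ v.asIdeal →
      ∀ x : 𝓞 K, art u x - x ^ π.norm.natAbs ∈ v.asIdeal

/-- `1 - a n^(-s) + ε n^(1-2s)` -/
noncomputable def localPoly (a ε : ℤ) (n : ℕ) (s : ℂ) : ℂ :=
  1 - (a : ℂ) * (n : ℂ) ^ (-s) + (ε : ℂ) * (n : ℂ) ^ (1 - 2 * s)

/-- the `(a, ε)` which are possible for the Euler factor `(1 - a n^(-s) + ε n^(1-2s))⁻¹` of an
elliptic curve at a place with `n` residue classes: `ε = 1` and `a² ≤ 4 n` (good reduction, Hasse) or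
`ε = 0` and `a ∈ {-1, 0, 1}` (bad reduction) -/
def Possible (n : ℕ) (a ε : ℤ) : Prop := (ε = 1 ∧ a ^ 2 ≤ 4 * (n : ℤ)) ∨ (ε = 0 ∧ a ^ 2 ≤ 1)

section
variable {K : Type} [Field K] [NumberField K]

/-- the places of `K` dividing `q` or `D` -/
def exceptional (q : GaussianInt) (ι : GaussianInt →+* 𝓞 K) (D : ℤ) :
    Set (HeightOneSpectrum (𝓞 K)) :=
  {v | ι q ∈ v.asIdeal ∨ (D : 𝓞 K) ∈ v.asIdeal}

open Classical in
/-- The Euler factor at `v` of `y² = x³ - D x`.  If `v` does not divide `q D` (then it does not divide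
`2 D`, the reduction is good) it is `(1 - a_v (Nv)^(-s) + (Nv)^(1-2s))⁻¹`, where `a_v` is `Nv` minus
the number of affine solutions `(x, y)` of the equation over the residue field `𝓞 K / v`; for the
finitely many other places it is the factor given by `(a v, ε v)`. -/
noncomputable def factor (q : GaussianInt) (ι : GaussianInt →+* 𝓞 K) (D : ℤ)
    (a ε : HeightOneSpectrum (𝓞 K) → ℤ) (s : ℂ) (v : HeightOneSpectrum (𝓞 K)) : ℂ :=
  if v ∈ exceptional q ι D then (localPoly (a v) (ε v) (Ideal.absNorm v.asIdeal) s)⁻¹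
  else (localPoly (((Ideal.absNorm v.asIdeal : ℕ) : ℤ) -
      ((Nat.card {p : (𝓞 K ⧸ v.asIdeal) × (𝓞 K ⧸ v.asIdeal) //
        p.2 ^ 2 = p.1 ^ 3 - (D : 𝓞 K ⧸ v.asIdeal) * p.1} : ℕ) : ℤ)) 1
      (Ideal.absNorm v.asIdeal) s)⁻¹

end

/-- `L` is the L-function of `E_D` over `K` with the given Euler factors at the exceptional places: it
is analytic for `Re s > 1/2`, it is the product of the Euler factors for `Re s > 3/2`, and its product
with the (finitely many) local polynomials at the exceptional places is entire. -/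
structure IsLFunction {K : Type} [Field K] [NumberField K] (q : GaussianInt)
    (ι : GaussianInt →+* 𝓞 K) (D : ℤ) (a e : HeightOneSpectrum (𝓞 K) → ℤ) (L : ℂ → ℂ) : Prop where
  analytic : AnalyticOnNhd ℂ L {s : ℂ | 1 / 2 < s.re}
  euler : ∀ s : ℂ, 3 / 2 < s.re → HasProd (factor q ι D a e s) (L s)
  finite : (exceptional q ι D).Finite
  entire : ∃ F : ℂ → ℂ, Differentiable ℂ F ∧ ∀ s : ℂ, 1 / 2 < s.re →
    F s = L s * ∏ᶠ v ∈ exceptional q ι D, localPoly (a v) (e v) (Ideal.absNorm v.asIdeal) s

/-- The zeros of `F` with `Re s > 1/2` and `|Im s| ≤ T`. -/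
def zeros (F : ℂ → ℂ) (T : ℝ) : Set ℂ := {s : ℂ | 1 / 2 < s.re ∧ |s.im| ≤ T ∧ F s = 0}

/-- The number of these zeros, counted with multiplicity. -/
noncomputable def N (F : ℂ → ℂ) (T : ℝ) : ℕ := ∑ᶠ s ∈ zeros F T, analyticOrderNatAt F s

/-- The number of those of them that lie on the line `Re s = 1`, counted with multiplicity. -/
noncomputable def N₀ (F : ℂ → ℂ) (T : ℝ) : ℕ :=
  ∑ᶠ s ∈ {s : ℂ | s ∈ zeros F T ∧ s.re = 1}, analyticOrderNatAt F s

/-- **Main theorem.** There are absolute constants `C` and `η > 0` with the following property.  Let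
`K` be the ray class field of `ℚ(i)` of modulus `q`, `2 + 2i ∣ q`, `n = [K : ℚ(i)]` (the order of the
image of `art`), and let `D ≠ 0` be an integer with a fourth root in `K`.  For every choice of possible
Euler factors at the finitely many places dividing `q D` (for example the ones of
`E_D : y² = x³ - D x`) there is the L-function `L` of `E_D` over `K`, and for
`C (1 + √(log (N(q) / n))) ≤ T ≤ N(q) ^ η` at least 67.25% of the zeros of `L` with `Re s > 1/2`,
`|Im s| ≤ T` (with multiplicity) lie on the line `Re s = 1`; the number of these zeros is at least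
`n T log N(q) / 4`. -/
theorem result : ∃ C η : ℝ, 0 < η ∧
    ∀ q : GaussianInt, q ≠ 0 → (⟨2, 2⟩ : GaussianInt) ∣ q →
    ∀ (K : Type) [Field K] [NumberField K] (ι : GaussianInt →+* 𝓞 K)
      (art : (GaussianInt ⧸ Ideal.span {q})ˣ →* (𝓞 K ≃+* 𝓞 K)), IsRayClassField q K ι art →
    ∀ D : ℤ, D ≠ 0 → (∃ d : 𝓞 K, d ^ 4 = (D : 𝓞 K)) →
    ∀ a e : HeightOneSpectrum (𝓞 K) → ℤ,
      (∀ v ∈ exceptional q ι D, Possible (Ideal.absNorm v.asIdeal) (a v) (e v)) →
    ∃ L : ℂ → ℂ, IsLFunction q ι D a e L ∧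
      ∀ T : ℝ, C * (1 + Real.sqrt (Real.log ((Zsqrtd.norm q : ℝ) / Nat.card art.range))) ≤ T →
        T ≤ (Zsqrtd.norm q : ℝ) ^ η →
        (zeros L T).Finite ∧
        (Nat.card art.range : ℝ) * T * Real.log (Zsqrtd.norm q : ℝ) / 4 ≤ (N L T : ℝ) ∧
        0.6725 * (N L T : ℝ) ≤ (N₀ L T : ℝ) := by
  classical
  obtain ⟨F, H, C₀, X₀, η, hη, Hz⟩ := Pool.Agent.A856.BH.bh_mainR
  obtain ⟨C, hC⟩ : ∃ C : ℝ, C = max 1 (max C₀ (|X₀| ^ η + 1)) := ⟨_, rfl⟩
  have hC1 : 1 ≤ C := by rw [hC]; exact le_max_left _ _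
  have hC2 : C₀ ≤ C := by rw [hC]; exact (le_max_left _ _).trans (le_max_right _ _)
  have hC3 : |X₀| ^ η + 1 ≤ C := by rw [hC]; exact (le_max_right _ _).trans (le_max_right _ _)
  refine ⟨C, η, hη, fun q hq h2 K _ _ ι art hK D hD hd a ε' hpos => ?_⟩
  have hK' : Pool.Agent.W164.RC.IsRayClassField q K ι art :=
    ⟨hK.invariants, hK.kernel, hK.unramified, hK.frobenius⟩
  obtain ⟨hF, hprod, hEfin⟩ := H q hq h2
  obtain ⟨hcard, hprod⟩ := hprod K ι art hK'
  have hnq : (H385.nrm q : ℝ) = (Zsqrtd.norm q : ℝ) := by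
    unfold H385.nrm
    rw [Nat.cast_natAbs, abs_of_nonneg (GaussianInt.norm_nonneg q)]
  obtain ⟨d, hd⟩ := hd
  have hιinj : Function.Injective ι := by
    rw [injective_iff_map_eq_zero]
    intro b hb
    by_contra h0
    have h3 : ι ((b.norm : ℤ) : GaussianInt) = 0 := by
      rw [Zsqrtd.norm_eq_mul_conj, map_mul, hb, zero_mul]
    rw [map_intCast] at h3
    have h4 : b.norm = 0 := by exact_mod_cast h3
    exact h0 (GaussianInt.norm_eq_zero.1 h4)
  have hιq : ι q ≠ 0 := fun h => hq (hιinj (by rw [h, map_zero]))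
  have hDK : (D : 𝓞 K) ≠ 0 := by exact_mod_cast hD
  have hfin : (exceptional q ι D).Finite :=
    (Pool.Agent.W164.RC.places_finite hιq).union (Pool.Agent.W164.RC.places_finite hDK)
  set S : Finset (HeightOneSpectrum (𝓞 K)) := hfin.toFinset with hS
  have hmemS : ∀ v, v ∈ S ↔ v ∈ exceptional q ι D := fun v => by rw [hS]; simp
  have hn2 : ∀ v : HeightOneSpectrum (𝓞 K), 2 ≤ Ideal.absNorm v.asIdeal :=
    fun v => Pool.Agent.H921R2.TatePole.two_le_nm v
  have hlp : ∀ (a ε : ℤ) (n : ℕ) (s : ℂ), localPoly a ε n s = Pool.Agent.W164.RC.lpoly a ε n s :=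
    fun _ _ _ _ => rfl
  -- places over two
  have htwo : ∀ v : HeightOneSpectrum (𝓞 K), ι q ∉ v.asIdeal →
      (Pool.Agent.H921R2.TatePole.below v : ℕ) ≠ 2 := by
    intro v hv hb
    apply hv
    have h7 := (Pool.Agent.H921R2.TatePole.nm_eq v).2.2
    rw [hb] at h7
    have h4 : ι ⟨1, 1⟩ ∈ v.asIdeal := by
      have h5 : ι ⟨1, 1⟩ * ι ⟨1, 1⟩ ∈ v.asIdeal := by
        have e : ((⟨1, 1⟩ : GaussianInt) * ⟨1, 1⟩) = ⟨0, 1⟩ * ((2 : ℕ) : GaussianInt) := by decide
        rw [← map_mul, e, map_mul, map_natCast]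
        exact v.asIdeal.mul_mem_left _ h7
      rcases v.isPrime.mem_or_mem h5 with h | h <;> exact h
    obtain ⟨c, rfl⟩ := (show (⟨1, 1⟩ : GaussianInt) ∣ ⟨2, 2⟩ from ⟨2, by decide⟩).trans h2
    rw [map_mul]
    exact v.asIdeal.mul_mem_right _ h4
  -- the numerator at the exceptional places not dividing `q`
  set g : HeightOneSpectrum (𝓞 K) → ℂ → ℂ := fun v s =>
    if ι q ∈ v.asIdeal then 1
    else Pool.Agent.W164.RC.lpoly (Pool.Agent.W164.RC.tr v) 1 (Ideal.absNorm v.asIdeal) s with hg
  have hgdiff : ∀ v, Differentiable ℂ (g v) := by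
    intro v
    rw [hg]
    by_cases h : ι q ∈ v.asIdeal
    · simp only [if_pos h]
      exact differentiable_const _
    · simp only [if_neg h]
      exact Pool.Agent.W164.RC.lpoly_diff _ _ (hn2 v)
  have hgne : ∀ v (s : ℂ), 1 / 2 < s.re → g v s ≠ 0 := by
    intro v s hs
    rw [hg]
    by_cases h : ι q ∈ v.asIdeal
    · simp only [if_pos h]
      exact one_ne_zero
    · simp only [if_neg h]
      exact Pool.Agent.W164.RC.lpoly_ne (hn2 v) (Pool.Agent.W164.RC.tr_poss v (htwo v h)) hs
  set P : HeightOneSpectrum (𝓞 K) → ℂ → ℂ := fun v s =>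
    Pool.Agent.W164.RC.lpoly (a v) (ε' v) (Ideal.absNorm v.asIdeal) s with hP
  have hPdiff : ∀ v, Differentiable ℂ (P v) := fun v => Pool.Agent.W164.RC.lpoly_diff _ _ (hn2 v)
  have hPne : ∀ v ∈ S, ∀ s : ℂ, 1 / 2 < s.re → P v s ≠ 0 := by
    intro v hv s hs
    exact Pool.Agent.W164.RC.lpoly_ne (hn2 v) (hpos v ((hmemS v).1 hv)) hs
  set R : ℂ → ℂ := fun s => ∏ v ∈ S, (g v s * (P v s)⁻¹) with hR
  have hRan : ∀ s : ℂ, 1 / 2 < s.re → AnalyticAt ℂ R s := by
    intro s hs
    rw [hR]
    apply Finset.analyticAt_fun_prod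
    intro v hv
    exact ((hgdiff v).analyticAt s).mul (((hPdiff v).analyticAt s).inv (hPne v hv s hs))
  have hRne : ∀ s : ℂ, 1 / 2 < s.re → R s ≠ 0 := by
    intro s hs
    rw [hR]
    simp only
    rw [Finset.prod_ne_zero_iff]
    intro v hv
    exact mul_ne_zero (hgne v s hs) (inv_ne_zero (hPne v hv s hs))
  have hzeros : ∀ T : ℝ, zeros (fun s => F q s * R s) T = Pool.Agent.A856.BH.zerosB (F q) T := by
    intro T
    ext s
    constructor
    · rintro ⟨h1, h3, h5⟩
      exact ⟨h1, h3, (mul_eq_zero.1 h5).resolve_right (hRne s h1)⟩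
    · rintro ⟨h1, h3, h5⟩
      refine ⟨h1, h3, ?_⟩
      show F q s * R s = 0
      rw [h5, zero_mul]
  have hord : ∀ s : ℂ, 1 / 2 < s.re →
      analyticOrderNatAt (fun s => F q s * R s) s = analyticOrderNatAt (F q) s := by
    intro s hs
    unfold analyticOrderNatAt
    rw [Pool.Agent.W164.RC.order_mul_ne (hF.analyticAt s) (hRan s hs) (hRne s hs)]
  have hN : ∀ T : ℝ, N (fun s => F q s * R s) T = Pool.Agent.A856.BH.NZ (F q) T := by
    intro T
    unfold N Pool.Agent.A856.BH.NZ
    rw [hzeros]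
    exact finsum_mem_congr rfl fun s hs => hord s hs.1
  have hN₀ : ∀ T : ℝ, N₀ (fun s => F q s * R s) T = Pool.Agent.A856.BH.NZ₀ (F q) T := by
    intro T
    unfold N₀ Pool.Agent.A856.BH.NZ₀
    rw [hzeros]
    exact finsum_mem_congr rfl fun s hs => hord s hs.1.1
  refine ⟨fun s => F q s * R s, ⟨?_, ?_, hfin, ?_⟩, ?_⟩
  · intro s hs
    exact (hF.analyticAt s).mul (hRan s hs)
  · intro s hs
    have hs' : 1 / 2 < s.re := by linarith
    have h3 : HasProd (fun v : HeightOneSpectrum (𝓞 K) =>
        if v ∈ S then g v s * (P v s)⁻¹ else 1) (R s) := by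
      have h4 : R s = ∏ v ∈ S, (if v ∈ S then g v s * (P v s)⁻¹ else 1) := by
        rw [hR]
        exact Finset.prod_congr rfl fun v hv => by rw [if_pos hv]
      rw [h4]
      apply hasProd_prod_of_ne_finset_one
      intro v hv
      rw [if_neg hv]
    have h5 := (hprod s hs).mul h3
    refine h5.congr_fun ?_
    intro v
    unfold factor
    by_cases hv : v ∈ exceptional q ι D
    · rw [if_pos hv, if_pos ((hmemS v).2 hv), hlp]
      have hg1 := hgne v s hs'
      by_cases hvq : ι q ∈ v.asIdeal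
      · rw [if_pos hvq]
        have : g v s = 1 := by rw [hg]; simp only [if_pos hvq]
        rw [this, one_mul, one_mul]
      · rw [if_neg hvq, Pool.Agent.W164.RC.eulerFactor_lpoly]
        have : g v s = Pool.Agent.W164.RC.lpoly (Pool.Agent.W164.RC.tr v) 1
            (Ideal.absNorm v.asIdeal) s := by rw [hg]; simp only [if_neg hvq]
        rw [← this, ← mul_assoc, inv_mul_cancel₀ hg1, one_mul]
    · have hvS : v ∉ S := fun h => hv ((hmemS v).1 h)
      have hvq : ι q ∉ v.asIdeal := fun h => hv (Or.inl h)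
      have hvD : (D : 𝓞 K) ∉ v.asIdeal := fun h => hv (Or.inr h)
      rw [if_neg hv, if_neg hvS, if_neg hvq, mul_one, Pool.Agent.W164.RC.eulerFactor_lpoly, hlp]
      have hmax : v.asIdeal.IsMaximal := v.isPrime.isMaximal v.ne_bot
      letI : Field (𝓞 K ⧸ v.asIdeal) := Ideal.Quotient.field v.asIdeal
      have hd4 : (Ideal.Quotient.mk v.asIdeal d) ^ 4 = (D : 𝓞 K ⧸ v.asIdeal) := by
        rw [← map_pow, hd, map_intCast]
      have hd0 : Ideal.Quotient.mk v.asIdeal d ≠ 0 := by
        intro h0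
        rw [h0, zero_pow (by norm_num)] at hd4
        apply hvD
        rw [← Ideal.Quotient.eq_zero_iff_mem, map_intCast]
        exact hd4.symm
      have hct := Pool.Agent.W164.RC.card_twist (Ideal.Quotient.mk v.asIdeal d) hd0
      rw [hd4] at hct
      rw [hct]
      rfl
  · refine ⟨fun s => F q s * ∏ v ∈ S, g v s, ?_, ?_⟩
    · exact hF.mul (Differentiable.fun_finsetProd fun v _ => hgdiff v)
    · intro s hs
      have h3 : ∏ᶠ v ∈ exceptional q ι D, localPoly (a v) (ε' v) (Ideal.absNorm v.asIdeal) s =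
          ∏ v ∈ S, P v s := by
        rw [← finprod_mem_coe_finset]
        have : (S : Set (HeightOneSpectrum (𝓞 K))) = exceptional q ι D := by
          ext v
          exact hmemS v
        rw [this]
        rfl
      rw [h3]
      show F q s * ∏ v ∈ S, g v s = F q s * R s * ∏ v ∈ S, P v s
      rw [hR, mul_assoc, ← Finset.prod_mul_distrib]
      congr 1
      refine Finset.prod_congr rfl fun v hv => ?_
      rw [mul_assoc, inv_mul_cancel₀ (hPne v hv s hs), mul_one]
  · intro T hT1 hT2
    have hN0 : (1 : ℝ) ≤ (Zsqrtd.norm q : ℝ) := by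
      rw [← hnq]
      exact_mod_cast H385.H10.nrm_pos hq
    have hNp : (0 : ℝ) < (Zsqrtd.norm q : ℝ) := by linarith
    have hφ0 := Pool.Agent.A856.BH.phi_pos' hq
    have hcr : (H385.phiQ q : ℝ) = 4 * (Nat.card art.range : ℝ) := by
      rw [← hcard]
      push_cast
      rfl
    have hc0 : (0 : ℝ) < (Nat.card art.range : ℝ) := by
      rw [hcr] at hφ0
      linarith
    have hs0 := Real.sqrt_nonneg (Real.log ((Zsqrtd.norm q : ℝ) / Nat.card art.range))
    have hCT : C ≤ T := by nlinarith
    have hX : X₀ ≤ (H385.nrm q : ℝ) := by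
      by_contra hcon
      push Not at hcon
      rw [hnq] at hcon
      have h3 : (Zsqrtd.norm q : ℝ) ≤ |X₀| := hcon.le.trans (le_abs_self _)
      have h4 := Real.rpow_le_rpow hNp.le h3 hη.le
      linarith
    have hρ : Real.log (Pool.Agent.A856.BH.rho q) ≤
        Real.log ((Zsqrtd.norm q : ℝ) / Nat.card art.range) := by
      have h3 := Pool.Agent.A856.BH.rho_ge hq
      refine Real.log_le_log (by linarith) ?_
      unfold Pool.Agent.A856.BH.rho
      rw [hnq, hcr]
      exact div_le_div_of_nonneg_left hNp.le hc0 (by linarith)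
    have hρ2 := Real.sqrt_le_sqrt hρ
    have hρ0 := Real.sqrt_nonneg (Real.log (Pool.Agent.A856.BH.rho q))
    have hT3 : C₀ * (1 + Real.sqrt (Real.log (Pool.Agent.A856.BH.rho q))) ≤ T := by
      refine le_trans ?_ hT1
      exact mul_le_mul hC2 (by linarith) (by linarith) (by linarith)
    obtain ⟨c2, c3⟩ := Hz q hq h2 hX T hT3 (by rw [hnq]; exact hT2)
    rw [hN, hN₀, hzeros]
    refine ⟨hEfin T, ?_, c3⟩
    refine le_trans (le_of_eq ?_) c2
    rw [hcr, hnq]
    ring

end Pool.Agent.Results.MP_fb225e_nt.LowZeros6725
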