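import Pool.Agent.H424.BY.EC

/-!
# The half-plane without zeros from the number of exceptional cut-offs, for elliptic curves over number fields

Let `K` be a number field and `E : y² = x³ + a x + b` an elliptic curve over `K`, `a, b` in the ring of integers (for
example a curve over `ℚ`). For the primes `v` of `K` which do not divide `6 (4a³ + 27b²)` let `N_v` be the number of
affine points modulo `v`, `q_v` the norm of `v`, and

`P(n) = ∏_{q_v ≤ n} (N_v + 1)/q_v`.

Let `F` be an entire continuation of the (incomplete) `L`-series `L(E/K, s)`, which grows at most like a power of `|s|`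
in some half-plane `Re s > 1 - η` (every continuation with the functional equation conjectured by Hasse and Weil
does). The Riemann hypothesis for `L(E/K, s)` says that `F` has no zeros with `Re s > 1`. It is shown that the
half-planes without zeros can be read off from the NUMBER of the exceptional cut-offs `n`.

1. If `F` has a zero with `Re s > 1 + c`, `c ≥ 0`, then for every `δ > 0`, every `C` and all large `M` at least
   `M^(1-δ)` of the cut-offs `n ≤ M` satisfy `P(n) > exp(C n^c)`. If moreover `F` has no REAL zeros `s > 1 + c`, at least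
   `M^(1-δ)` of the `n ≤ M` satisfy `P(n) < exp(-C n^c)`.
2. If `F` has no zeros with `Re s > 1 + θ`, `θ ≥ 0`, then for `θ < κ ≤ θ + 1/2`, every `ε > 0` and all large `M` at most
   `M^(1 - 2(κ-θ) + ε)` of the `n ≤ M` satisfy `|log P(n)| > n^κ`.
3. Hence for every `θ ≥ 0` the following are equivalent: `F` has no zeros with `Re s > 1 + θ`; for every `ε > 0` there is
   a `δ > 0` such that for all large `M` at most `M^(1-δ)` of the `n ≤ M` satisfy `|log P(n)| > n^(θ+ε)`; for every
   `ε > 0` there is a `δ > 0` such that for infinitely many `M` at most `M^(1-δ)` of the `n ≤ M` satisfy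
   `log P(n) > n^(θ+ε)`. With `θ = 0` this is a criterion for the Riemann hypothesis for `L(E/K, s)`. If there are no
   real zeros `> 1 + θ`, the third condition can be replaced by the one with `log P(n) < -n^(θ+ε)`.

So if the Riemann hypothesis fails for `L(E/K, s)`, `P(n)` is enormous for `M^(1-o(1))` of the `n ≤ M`, for all `M`; if it
holds, the values `|log P(n)| > n^ε` are rare in the sense of a power of `M`. Nothing is assumed besides the
continuation: Hasse's bound for the curves over the residue fields is proved in the starting files.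

Proof. (`Pool.Agent.H424.BX`, `Pool.Agent.H424.BY`, the latter for arbitrary systems of primes.) Let `b` be the
supremum of the real parts of the zeros of `F(1 + s)`. The explicit formula with Gaussian weights
(`Pool.Agent.TH949.TX`), used at a real point slightly below `b` and at a complex one, shows that the Gaussian means
of the positive part of `log P(e^u) e^{-σu}` are large at every scale, `σ` near `b`. By Plancherel's theorem
(`Pool.Agent.TH270.MS`) and the growth of `F`, `log P(e^u) e^{-xu}` is square integrable for `x > b`. By Cauchy's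
inequality the set of the large values cannot be small. Part 2 follows from the square integrability alone.
-/

set_option autoImplicit false

namespace Pool.Agent.Results.MP_fb225e_nt.ManyCutoffs

open NumberField IsDedekindDomain Filter Topology Classical

section defs

variable {K : Type} [Field K] [NumberField K]

/-- The prime `v` does not divide `6 (4a³ + 27b²)`. -/
def Good (a b : 𝓞 K) (v : HeightOneSpectrum (𝓞 K)) : Prop :=
  6 * (4 * a ^ 3 + 27 * b ^ 2) ∉ v.asIdeal

/-- `N_v`: the number of pairs `(x, y)` in the residue field of `v` with `y² = x³ + a x + b`. -/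
noncomputable def points (a b : 𝓞 K) (v : HeightOneSpectrum (𝓞 K)) : ℕ :=
  Nat.card {P : (𝓞 K ⧸ v.asIdeal) × (𝓞 K ⧸ v.asIdeal) //
    P.2 ^ 2 = P.1 ^ 3 + Ideal.Quotient.mk v.asIdeal a * P.1 + Ideal.Quotient.mk v.asIdeal b}

/-- `P(n)`: the product of `(N_v + 1) / q_v` over the good primes `v` with `q_v ≤ n`. -/
noncomputable def P (a b : 𝓞 K) (n : ℕ) : ℝ :=
  ∏ᶠ (v : HeightOneSpectrum (𝓞 K)) (_ : Good a b v ∧ Ideal.absNorm v.asIdeal ≤ n),
    (((points a b v : ℝ) + 1) / Ideal.absNorm v.asIdeal)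

/-- The `L`-series without the factors at the divisors of `6 (4a³ + 27b²)`: the product of the
`(1 - a_v q_v^{-s} + q_v^{1-2s})⁻¹`, `a_v = q_v - N_v`, over the good primes. -/
noncomputable def LSer (a b : 𝓞 K) (s : ℂ) : ℂ :=
  ∏' v : {v : HeightOneSpectrum (𝓞 K) // Good a b v},
    (1 - ((Ideal.absNorm v.1.asIdeal : ℂ) - points a b v.1) * (Ideal.absNorm v.1.asIdeal : ℂ) ^ (-s) +
      (Ideal.absNorm v.1.asIdeal : ℂ) ^ (1 - 2 * s))⁻¹

/-- `F` is an entire function, equal to the `L`-series for `Re s > 3/2`, which grows at most like a power of `|s|` in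
some half-plane `Re s > 1 - η`, `η > 0`. -/
structure IsContinuation (a b : 𝓞 K) (F : ℂ → ℂ) : Prop where
  entire : Differentiable ℂ F
  eq : ∀ s : ℂ, 3 / 2 < s.re → F s = LSer a b s
  growth : ∃ (η C : ℝ) (κ : ℕ), 0 < η ∧ ∀ s : ℂ, 1 - η < s.re → ‖F s‖ ≤ C * (1 + ‖s‖) ^ κ

/-- The number of the elements `n` of `S` with `1 ≤ n ≤ M`. -/
noncomputable def count (S : Set ℕ) (M : ℕ) : ℕ := {n : ℕ | 1 ≤ n ∧ n ≤ M ∧ n ∈ S}.ncard

/-- For all large `M` at least `M^(1-δ)` of the `n ≤ M` are in `S`, for every `δ > 0`. -/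
def Many (S : Set ℕ) : Prop := ∀ δ : ℝ, 0 < δ → ∀ᶠ M : ℕ in atTop, (M : ℝ) ^ (1 - δ) ≤ count S M

/-- There is a `δ > 0` such that for all large `M` at most `M^(1-δ)` of the `n ≤ M` are in `S`. -/
def Few (S : Set ℕ) : Prop := ∃ δ : ℝ, 0 < δ ∧ ∀ᶠ M : ℕ in atTop, (count S M : ℝ) ≤ (M : ℝ) ^ (1 - δ)

/-- There is a `δ > 0` such that for infinitely many `M` at most `M^(1-δ)` of the `n ≤ M` are in `S`. -/
def SometimesFew (S : Set ℕ) : Prop :=
  ∃ δ : ℝ, 0 < δ ∧ ∃ᶠ M : ℕ in atTop, (count S M : ℝ) ≤ (M : ℝ) ^ (1 - δ)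

/-- `F` has no zeros with `Re s > 1 + θ`. -/
def NoZeros (F : ℂ → ℂ) (θ : ℝ) : Prop := ∀ s : ℂ, 1 + θ < s.re → F s ≠ 0

/-- `F` has no real zeros `s > 1 + θ`. -/
def NoRealZeros (F : ℂ → ℂ) (θ : ℝ) : Prop := ∀ s : ℝ, 1 + θ < s → F s ≠ 0

end defs

/-! ### Translation -/

section translation

variable {K : Type} [Field K] [NumberField K] {a b : 𝓞 K}

theorem P_eq (n : ℕ) : P a b n = ∏ᶠ (v : HeightOneSpectrum (𝓞 K))
    (_ : Pool.Agent.TH942.ES.GoodV a b v ∧ Pool.Agent.H921R2.TatePole.nm v ≤ n),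
    (((Pool.Agent.TH942.ES.ptsV a b v : ℝ) + 1) / Pool.Agent.H921R2.TatePole.nm v) := rfl

theorem P_pos (n : ℕ) : 0 < P a b n := by
  rw [P_eq]
  exact Pool.Agent.H424.BY.prod_pos a b n

theorem ct {F : ℂ → ℂ} (hF : IsContinuation a b F) : Pool.Agent.H424.BY.CtV a b F where
  entire := hF.entire
  eq := hF.eq
  growth := hF.growth

theorem noZeros {F : ℂ → ℂ} {θ : ℝ} (h : NoZeros F θ) : ∀ s : ℂ, θ < s.re → (fun s => F (1 + s)) s ≠ 0 := by
  intro s hs
  exact h (1 + s) (by
    rw [Complex.add_re, Complex.one_re]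
    linarith)

theorem noRealZeros {F : ℂ → ℂ} {θ : ℝ} (h : NoRealZeros F θ) :
    ∀ s : ℝ, θ < s → (fun s => F (1 + s)) (s : ℂ) ≠ 0 := by
  intro s hs
  have h1 : F (((1 + s : ℝ)) : ℂ) ≠ 0 := h (1 + s) (by linarith)
  push_cast at h1
  exact h1

theorem not_few_of_many {S : Set ℕ} (h : Many S) : ¬ SometimesFew S := by
  rintro ⟨δ, hδ, h1⟩
  obtain ⟨N, h3, h4, h5⟩ := (h1.and_eventually ((h (δ / 2) (half_pos hδ)).and (eventually_ge_atTop 2))).exists
  have h6 := h4.trans h3
  have hN : (2 : ℝ) ≤ N := by exact_mod_cast h5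
  have h7 : (N : ℝ) ^ (1 - δ) < (N : ℝ) ^ (1 - δ / 2) :=
    Real.rpow_lt_rpow_of_exponent_lt (by linarith) (by linarith)
  linarith

end translation

/-- **The half-plane without zeros from the number of exceptional cut-offs, over number fields.** -/
theorem result (K : Type) [Field K] [NumberField K] (a b : 𝓞 K) (_hΔ : 4 * a ^ 3 + 27 * b ^ 2 ≠ 0)
    (F : ℂ → ℂ) (hF : IsContinuation a b F) :
    (∀ c : ℝ, 0 ≤ c → ¬ NoZeros F c → ∀ C : ℝ,
      Many {n : ℕ | Real.exp (C * (n : ℝ) ^ c) < P a b n} ∧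
      (NoRealZeros F c → Many {n : ℕ | P a b n < Real.exp (-(C * (n : ℝ) ^ c))})) ∧
    (∀ θ : ℝ, 0 ≤ θ → NoZeros F θ → ∀ κ : ℝ, θ < κ → κ ≤ θ + 1 / 2 → ∀ ε : ℝ, 0 < ε →
      ∀ᶠ M : ℕ in atTop, (count {n : ℕ | (n : ℝ) ^ κ < |Real.log (P a b n)|} M : ℝ) ≤
        (M : ℝ) ^ (1 - 2 * (κ - θ) + ε)) ∧
    (∀ θ : ℝ, 0 ≤ θ → List.TFAE [
      NoZeros F θ,
      ∀ ε : ℝ, 0 < ε → Few {n : ℕ | (n : ℝ) ^ (θ + ε) < |Real.log (P a b n)|},
      ∀ ε : ℝ, 0 < ε → SometimesFew {n : ℕ | (n : ℝ) ^ (θ + ε) < Real.log (P a b n)}]) ∧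
    ∀ θ : ℝ, 0 ≤ θ → NoRealZeros F θ → (NoZeros F θ ↔
      ∀ ε : ℝ, 0 < ε → SometimesFew {n : ℕ | Real.log (P a b n) < -(n : ℝ) ^ (θ + ε)}) := by
  have H := (ct hF).ex
  obtain ⟨B, hB⟩ := Pool.Agent.H424.BY.log_near a b
  have hzero : ∀ c : ℝ, ¬ NoZeros F c → ∃ s : ℂ, c < s.re ∧ F (1 + s) = 0 := by
    intro c hnz
    unfold NoZeros at hnz
    push Not at hnz
    obtain ⟨s, hs, h0⟩ := hnz
    refine ⟨s - 1, ?_, ?_⟩
    · rw [Complex.sub_re, Complex.one_re]
      linarith
    · rwa [add_sub_cancel]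
  have hup : ∀ c : ℝ, 0 ≤ c → ¬ NoZeros F c → ∀ C : ℝ,
      Many {n : ℕ | C * (n : ℝ) ^ c < Real.log (P a b n)} := by
    intro c hc hnz C δ hδ
    obtain ⟨s, hs, h0⟩ := hzero c hnz
    exact Pool.Agent.H424.BY.up_count H (f := fun n => Real.log (P a b n)) hB hc (ρ := s) hs h0 hδ C
  have hdown : ∀ c : ℝ, 0 ≤ c → ¬ NoZeros F c → NoRealZeros F c → ∀ C : ℝ,
      Many {n : ℕ | Real.log (P a b n) < -(C * (n : ℝ) ^ c)} := by
    intro c hc hnz hreal C δ hδ
    obtain ⟨s, hs, h0⟩ := hzero c hnz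
    exact Pool.Agent.H424.BY.down_count H (f := fun n => Real.log (P a b n)) hB hc (noRealZeros hreal)
      (ρ := s) hs h0 hδ C
  have hfew : ∀ θ : ℝ, 0 ≤ θ → NoZeros F θ → ∀ ε : ℝ, 0 < ε →
      Few {n : ℕ | (n : ℝ) ^ (θ + ε) < |Real.log (P a b n)|} := by
    intro θ hθ hz ε hε
    exact Pool.Agent.H424.BY.sav_of H (f := fun n => Real.log (P a b n)) hB hθ (noZeros hz) hε
  have hmono : ∀ {S T : Set ℕ}, S ⊆ T → Few T → SometimesFew S := by
    rintro S T hST ⟨δ, hδ, h1⟩
    refine ⟨δ, hδ, (h1.mono fun M hM => le_trans ?_ hM).frequently⟩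
    exact_mod_cast Pool.Agent.H424.BX.cnt_mono fun n _ _ h => hST h
  refine ⟨fun c hc hnz C => ⟨?_, fun hreal => ?_⟩, ?_, ?_, ?_⟩
  · have h := hup c hc hnz C
    have e : {n : ℕ | Real.exp (C * (n : ℝ) ^ c) < P a b n} =
        {n : ℕ | C * (n : ℝ) ^ c < Real.log (P a b n)} := by
      ext n
      exact (Real.lt_log_iff_exp_lt (P_pos n)).symm
    rw [e]
    exact h
  · have h := hdown c hc hnz hreal C
    have e : {n : ℕ | P a b n < Real.exp (-(C * (n : ℝ) ^ c))} =
        {n : ℕ | Real.log (P a b n) < -(C * (n : ℝ) ^ c)} := by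
      ext n
      exact (Real.log_lt_iff_lt_exp (P_pos n)).symm
    rw [e]
    exact h
  · intro θ hθ hz κ h1 h2 ε hε
    exact Pool.Agent.H424.BY.upper_count H (f := fun n => Real.log (P a b n)) hB hθ (noZeros hz) h1 h2 hε
  · intro θ hθ
    tfae_have 1 → 2 := fun hz ε hε => hfew θ hθ hz ε hε
    tfae_have 2 → 3 := fun h ε hε => hmono (fun n hn => lt_of_lt_of_le
      (show (n : ℝ) ^ (θ + ε) < Real.log (P a b n) from hn) (le_abs_self _)) (h ε hε)
    tfae_have 3 → 1 := by
      intro h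
      by_contra hnz
      unfold NoZeros at hnz
      push Not at hnz
      obtain ⟨s, hs, h0⟩ := hnz
      have hε : 0 < (s.re - 1 - θ) / 2 := by linarith
      have h1 := hup (θ + (s.re - 1 - θ) / 2) (by linarith) (fun hz => hz s (by linarith) h0) 1
      simp only [one_mul] at h1
      exact not_few_of_many h1 (h _ hε)
    tfae_finish
  · intro θ hθ hreal
    constructor
    · intro hz ε hε
      refine hmono (fun n hn => ?_) (hfew θ hθ hz ε hε)
      have h1 : Real.log (P a b n) < -(n : ℝ) ^ (θ + ε) := hn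
      show (n : ℝ) ^ (θ + ε) < |Real.log (P a b n)|
      have h2 := neg_abs_le (Real.log (P a b n))
      linarith
    · intro h
      by_contra hnz
      unfold NoZeros at hnz
      push Not at hnz
      obtain ⟨s, hs, h0⟩ := hnz
      have hε : 0 < (s.re - 1 - θ) / 2 := by linarith
      have h1 := hdown (θ + (s.re - 1 - θ) / 2) (by linarith) (fun hz => hz s (by linarith) h0)
        (fun x hx => hreal x (by linarith)) 1
      simp only [one_mul] at h1
      exact not_few_of_many h1 (h _ hε)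

end Pool.Agent.Results.MP_fb225e_nt.ManyCutoffs
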