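import Pool.Agent.A856.SE.Main
import Pool.Agent.A856.SE.Sig
import Pool.Agent.W164.RC.Bad

/-!
# Selberg's density theorem for `L(E/K, s)`, `K` a ray class field of `ℚ(i)`

`E_D : y² = x³ - D x`, `D` a non-zero integer (these are, up to isomorphism, the elliptic curves over
`ℚ` with `j = 1728`), and `K` is a ray class field of `ℚ(i)` whose modulus `q` is divisible by
`2 + 2i` and which contains a fourth root of `D` (for `D = 1`, every such ray class field), with
`[K : ℚ(i)] ≥ κ N(q)`, `κ > 0` fixed; the degree is `φ(q)/4`, so that this only excludes moduli with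
many small prime factors.  Let `N = N(q)`.

We prove for every single such field `K`, without any hypothesis and with constants depending only on
`κ`, `c < 1`, `ε`, `T`:
* the number of zeros of `L(E_D/K, s)` with `1/2 < Re s < 3/2`, `|Re s - 1| ≥ δ` and
  `|Im s - t| ≤ 1 / log N` is at most `C N^(1 - c δ)`, for all `δ ≥ 0` and `|t| ≤ T`;
* all but `ε [K : ℚ(i)] log N` of the zeros with `1/2 < Re s < 3/2`, `|Im s| ≤ T` satisfy
  `|Re s - 1| < A / log N` (by the Riemann-von Mangoldt formula there are about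
  `(2T/π) [K : ℚ(i)] log N` zeros with `|Im s| ≤ T`, and each of the `2 [K : ℚ(i)]` Hecke L-functions
  which are the factors of `L(E_D/K, s)` has zeros of mean distance about `2π / log N`);
* the order of vanishing of `L(E_D/K, s)` at `s = 1`, and at every point `1 + it`, `|t| ≤ T`, is at
  most `C [K : ℚ(i)]` (the trivial bound is `O([K : ℚ(i)] log N)`).

Proof.  The Euler factors of `L(E_D/K, s)` are those of all the Hecke characters `ψ_E χ`, `χ` a ray
class character modulo `q`, and of the conjugate characters, which belong to the modulus `q̄`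
(`Pool/Agent/W164/RC`).  For the characters of a given exact conductor `d ∣ q` we prove Selberg's
density theorem with a mollifier of length `N(d)^(1/2 - ε)`, the large sieve for the residue classes
modulo `d` of the generators of the ideals, and Jensen's formula on the images of large discs under
the logarithm (`Pool/Agent/A856/SD`, `SE`); then we sum over the divisors `d` of `q`.
-/

set_option autoImplicit false

open Complex NumberField IsDedekindDomain

namespace Pool.Agent.Results.MP_fb225e_nt.SelbergRayClassFields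

/-- `K` is the ray class field of `ℚ(i)` of modulus `q`: `ι` embeds `ℤ[i]` into the ring of integers
of `K`, and `art` is the Artin map, a homomorphism from `(ℤ[i]/q)ˣ` to the group of automorphisms of
the ring of integers of `K` (equivalently of `K`) such that
* `ℤ[i]` is the ring of invariants (so `K/ℚ(i)` is Galois and its group is the image of `art`),
* the kernel consists of the classes of the units of `ℤ[i]` (so the Galois group is the ray class
  group modulo `q`),
* `K/ℚ(i)` is unramified outside `q`: the inertia group at every prime `v` of `K` not dividing `q`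
  is trivial,
* for every prime `π` of `ℤ[i]` not dividing `q`, `art π` is the Frobenius automorphism
  `x ↦ x ^ N(π)` at all primes `v` of `K` above `π`. -/
structure IsRayClassField (q : GaussianInt) (K : Type) [Field K] [NumberField K]
    (ι : GaussianInt →+* 𝓞 K)
    (art : (GaussianInt ⧸ Ideal.span {q})ˣ →* (𝓞 K ≃+* 𝓞 K)) : Prop where
  invariants : ∀ x : 𝓞 K, (∀ u, art u x = x) ↔ x ∈ ι.range
  kernel : ∀ u : (GaussianInt ⧸ Ideal.span {q})ˣ, art u = 1 ↔
    ∃ e : GaussianIntˣ, (u : GaussianInt ⧸ Ideal.span {q}) = Ideal.Quotient.mk _ (e : GaussianInt)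
  unramified : ∀ v : HeightOneSpectrum (𝓞 K), ι q ∉ v.asIdeal →
    ∀ u, (∀ x, art u x - x ∈ v.asIdeal) → art u = 1
  frobenius : ∀ π : GaussianInt, Prime π → ∀ u : (GaussianInt ⧸ Ideal.span {q})ˣ,
    (u : GaussianInt ⧸ Ideal.span {q}) = Ideal.Quotient.mk _ π →
    ∀ v : HeightOneSpectrum (𝓞 K), ι π ∈ v.asIdeal →
      ∀ x : 𝓞 K, art u x - x ^ π.norm.natAbs ∈ v.asIdeal

/-- `1 - a n^(-s) + ε n^(1-2s)` -/
noncomputable def localPoly (a ε : ℤ) (n : ℕ) (s : ℂ) : ℂ :=
  1 - (a : ℂ) * (n : ℂ) ^ (-s) + (ε : ℂ) * (n : ℂ) ^ (1 - 2 * s)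

/-- the `(a, ε)` which are possible for the Euler factor `(1 - a n^(-s) + ε n^(1-2s))⁻¹` of an
elliptic curve at a place with `n` residue classes: `ε = 1` and `a² ≤ 4 n` (good reduction, Hasse) or
`ε = 0` and `a ∈ {-1, 0, 1}` (bad reduction) -/
def Possible (n : ℕ) (a ε : ℤ) : Prop := (ε = 1 ∧ a ^ 2 ≤ 4 * (n : ℤ)) ∨ (ε = 0 ∧ a ^ 2 ≤ 1)

section
variable {K : Type} [Field K] [NumberField K]

/-- the places of `K` dividing `q` or `D` -/
def exceptional (q : GaussianInt) (ι : GaussianInt →+* 𝓞 K) (D : ℤ) :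
    Set (HeightOneSpectrum (𝓞 K)) :=
  {v | ι q ∈ v.asIdeal ∨ (D : 𝓞 K) ∈ v.asIdeal}

open Classical in
/-- The Euler factor at `v` of `y² = x³ - D x`.  If `v` does not divide `q D` (then it does not divide
`2 D`, the reduction is good) it is `(1 - a_v (Nv)^(-s) + (Nv)^(1-2s))⁻¹`, where `a_v` is `Nv` minus
the number of affine solutions `(x, y)` of the equation over the residue field `𝓞 K / v`; for the
finitely many other places it is the factor given by `(a v, ε v)`. -/
noncomputable def factor (q : GaussianInt) (ι : GaussianInt →+* 𝓞 K) (D : ℤ)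
    (a ε : HeightOneSpectrum (𝓞 K) → ℤ) (s : ℂ) (v : HeightOneSpectrum (𝓞 K)) : ℂ :=
  if v ∈ exceptional q ι D then (localPoly (a v) (ε v) (Ideal.absNorm v.asIdeal) s)⁻¹
  else (localPoly (((Ideal.absNorm v.asIdeal : ℕ) : ℤ) -
      ((Nat.card {p : (𝓞 K ⧸ v.asIdeal) × (𝓞 K ⧸ v.asIdeal) //
        p.2 ^ 2 = p.1 ^ 3 - (D : 𝓞 K ⧸ v.asIdeal) * p.1} : ℕ) : ℤ)) 1
      (Ideal.absNorm v.asIdeal) s)⁻¹

end

/-- `L` is the L-function of `E_D` over `K` with the given Euler factors at the exceptional places: it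
is analytic for `Re s > 1/2`, it is the product of the Euler factors for `Re s > 3/2`, and its product
with the (finitely many) local polynomials at the exceptional places is entire. -/
structure IsLFunction {K : Type} [Field K] [NumberField K] (q : GaussianInt)
    (ι : GaussianInt →+* 𝓞 K) (D : ℤ) (a e : HeightOneSpectrum (𝓞 K) → ℤ) (L : ℂ → ℂ) : Prop where
  analytic : AnalyticOnNhd ℂ L {s : ℂ | 1 / 2 < s.re}
  euler : ∀ s : ℂ, 3 / 2 < s.re → HasProd (factor q ι D a e s) (L s)
  finite : (exceptional q ι D).Finite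
  entire : ∃ F : ℂ → ℂ, Differentiable ℂ F ∧ ∀ s : ℂ, 1 / 2 < s.re →
    F s = L s * ∏ᶠ v ∈ exceptional q ι D, localPoly (a v) (e v) (Ideal.absNorm v.asIdeal) s

/-- The zeros of `F` with `1/2 < Re s < 3/2` at distance at least `δ` from the line `Re s = 1`, with
`|Im s - t| ≤ r`. -/
def off (F : ℂ → ℂ) (δ t r : ℝ) : Set ℂ :=
  {s : ℂ | F s = 0 ∧ 1 / 2 < s.re ∧ s.re < 3 / 2 ∧ δ ≤ |s.re - 1| ∧ |s.im - t| ≤ r}

/-- The number of these zeros, counted with multiplicity. -/
noncomputable def Noff (F : ℂ → ℂ) (δ t r : ℝ) : ℕ := ∑ᶠ s ∈ off F δ t r, analyticOrderNatAt F s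

/-- The three properties of the zeros of `L(E/K, s)`: `N` is the norm of the modulus, `n` the degree
of `K` over `ℚ(i)`.
* `density`: at most `C N^(1 - c δ)` zeros (with multiplicity) with `1/2 < Re s < 3/2`,
  `|Re s - 1| ≥ δ`, `|Im s - t| ≤ 1 / log N`, for `δ ≥ 0` and `|t| ≤ T`;
* `near`: at most `ε n log N` zeros with `1/2 < Re s < 3/2`, `|Re s - 1| ≥ A / log N`, `|Im s| ≤ T`;
* `order`: the order of vanishing at `1 + it` is at most `C n`, for `|t| ≤ T`. -/
structure ZerosNearLine (c ε T A C N n : ℝ) (L : ℂ → ℂ) : Prop where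
  finite : ∀ δ t r : ℝ, (off L δ t r).Finite
  density : ∀ δ t : ℝ, 0 ≤ δ → |t| ≤ T → (Noff L δ t (1 / Real.log N) : ℝ) ≤ C * N ^ (1 - c * δ)
  near : (Noff L (A / Real.log N) 0 T : ℝ) ≤ ε * (n * Real.log N)
  order : ∀ t : ℝ, |t| ≤ T → (analyticOrderNatAt L (1 + t * I) : ℝ) ≤ C * n

/-- **Main theorem.** Let `0 < c < 1` and `κ, ε, T > 0`.  There are constants `A`, `C` with the
following property.  Let `K` be the ray class field of `ℚ(i)` of modulus `q`, `2 + 2i ∣ q`, with
`[K : ℚ(i)] ≥ κ N(q)`, and let `D ≠ 0` be an integer with a fourth root in `K`.  For every choice of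
possible Euler factors at the finitely many places dividing `q D` (for example the ones of
`E_D : y² = x³ - D x`) there is the L-function `L` of `E_D` over `K`, and its zeros have the
properties `ZerosNearLine`. -/
theorem result (c κ ε T : ℝ) (hc0 : 0 < c) (hc1 : c < 1) (hκ : 0 < κ) (hε : 0 < ε) (hT : 0 < T) :
    ∃ A C : ℝ,
    ∀ q : GaussianInt, q ≠ 0 → (⟨2, 2⟩ : GaussianInt) ∣ q →
    ∀ (K : Type) [Field K] [NumberField K] (ι : GaussianInt →+* 𝓞 K)
      (art : (GaussianInt ⧸ Ideal.span {q})ˣ →* (𝓞 K ≃+* 𝓞 K)), IsRayClassField q K ι art →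
    κ * (Zsqrtd.norm q : ℝ) ≤ (Nat.card art.range : ℝ) →
    ∀ D : ℤ, D ≠ 0 → (∃ d : 𝓞 K, d ^ 4 = (D : 𝓞 K)) →
    ∀ a e : HeightOneSpectrum (𝓞 K) → ℤ,
      (∀ v ∈ exceptional q ι D, Possible (Ideal.absNorm v.asIdeal) (a v) (e v)) →
    ∃ L : ℂ → ℂ, IsLFunction q ι D a e L ∧
      ZerosNearLine c ε T A C (Zsqrtd.norm q : ℝ) (Nat.card art.range : ℝ) L := by
  classical
  obtain ⟨F, H, Hd, Hn⟩ := Pool.Agent.A856.SE.main_dens Pool.Agent.A856.SE.sum_Dv
  obtain ⟨C, hC, Hd⟩ := Hd c κ T hc0 hc1 hκ hT.le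
  obtain ⟨A, hA, Hn⟩ := Hn κ (ε * κ) T hκ (by positivity) hT
  refine ⟨A, C + C / κ, fun q hq h2 K _ _ ι art hK hdeg D hD hd a ε' hpos => ?_⟩
  have hK' : Pool.Agent.W164.RC.IsRayClassField q K ι art :=
    ⟨hK.invariants, hK.kernel, hK.unramified, hK.frobenius⟩
  obtain ⟨hF, hprod, hEfin⟩ := H q hq h2
  obtain ⟨hcard, hprod⟩ := hprod K ι art hK'
  have hnq : (H385.nrm q : ℝ) = (Zsqrtd.norm q : ℝ) := by
    unfold H385.nrm
    rw [Nat.cast_natAbs, abs_of_nonneg (GaussianInt.norm_nonneg q)]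
  have hdeg' : κ * (H385.nrm q : ℝ) ≤ (H385.phiQ q : ℝ) := by
    rw [hnq, ← hcard]
    refine hdeg.trans ?_
    push_cast
    have : (0 : ℝ) ≤ (Nat.card art.range : ℝ) := Nat.cast_nonneg _
    linarith
  have Hd' := Hd q hq h2 hdeg'
  have Hn' := Hn q hq h2 hdeg'
  have h8 : (8 : ℝ) ≤ (Zsqrtd.norm q : ℝ) := by
    rw [← hnq]
    exact_mod_cast Pool.Agent.W164.RC.eight_le_nrm hq h2
  rw [hnq] at Hd' Hn'
  obtain ⟨d, hd⟩ := hd
  have hιinj : Function.Injective ι := by
    rw [injective_iff_map_eq_zero]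
    intro b hb
    by_contra h0
    have h3 : ι ((b.norm : ℤ) : GaussianInt) = 0 := by
      rw [Zsqrtd.norm_eq_mul_conj, map_mul, hb, zero_mul]
    rw [map_intCast] at h3
    have h4 : b.norm = 0 := by exact_mod_cast h3
    exact h0 (GaussianInt.norm_eq_zero.1 h4)
  have hιq : ι q ≠ 0 := fun h => hq (hιinj (by rw [h, map_zero]))
  have hDK : (D : 𝓞 K) ≠ 0 := by exact_mod_cast hD
  have hfin : (exceptional q ι D).Finite :=
    (Pool.Agent.W164.RC.places_finite hιq).union (Pool.Agent.W164.RC.places_finite hDK)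
  set S : Finset (HeightOneSpectrum (𝓞 K)) := hfin.toFinset with hS
  have hmemS : ∀ v, v ∈ S ↔ v ∈ exceptional q ι D := fun v => by rw [hS]; simp
  have hn2 : ∀ v : HeightOneSpectrum (𝓞 K), 2 ≤ Ideal.absNorm v.asIdeal :=
    fun v => Pool.Agent.H921R2.TatePole.two_le_nm v
  have hlp : ∀ (a ε : ℤ) (n : ℕ) (s : ℂ), localPoly a ε n s = Pool.Agent.W164.RC.lpoly a ε n s :=
    fun _ _ _ _ => rfl
  -- places over two
  have htwo : ∀ v : HeightOneSpectrum (𝓞 K), ι q ∉ v.asIdeal →
      (Pool.Agent.H921R2.TatePole.below v : ℕ) ≠ 2 := by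
    intro v hv hb
    apply hv
    have h7 := (Pool.Agent.H921R2.TatePole.nm_eq v).2.2
    rw [hb] at h7
    have h4 : ι ⟨1, 1⟩ ∈ v.asIdeal := by
      have h5 : ι ⟨1, 1⟩ * ι ⟨1, 1⟩ ∈ v.asIdeal := by
        have e : ((⟨1, 1⟩ : GaussianInt) * ⟨1, 1⟩) = ⟨0, 1⟩ * ((2 : ℕ) : GaussianInt) := by decide
        rw [← map_mul, e, map_mul, map_natCast]
        exact v.asIdeal.mul_mem_left _ h7
      rcases v.isPrime.mem_or_mem h5 with h | h <;> exact h
    obtain ⟨c, rfl⟩ := (show (⟨1, 1⟩ : GaussianInt) ∣ ⟨2, 2⟩ from ⟨2, by decide⟩).trans h2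
    rw [map_mul]
    exact v.asIdeal.mul_mem_right _ h4
  -- the numerator at the exceptional places not dividing `q`
  set g : HeightOneSpectrum (𝓞 K) → ℂ → ℂ := fun v s =>
    if ι q ∈ v.asIdeal then 1
    else Pool.Agent.W164.RC.lpoly (Pool.Agent.W164.RC.tr v) 1 (Ideal.absNorm v.asIdeal) s with hg
  have hgdiff : ∀ v, Differentiable ℂ (g v) := by
    intro v
    rw [hg]
    by_cases h : ι q ∈ v.asIdeal
    · simp only [if_pos h]
      exact differentiable_const _
    · simp only [if_neg h]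
      exact Pool.Agent.W164.RC.lpoly_diff _ _ (hn2 v)
  have hgne : ∀ v (s : ℂ), 1 / 2 < s.re → g v s ≠ 0 := by
    intro v s hs
    rw [hg]
    by_cases h : ι q ∈ v.asIdeal
    · simp only [if_pos h]
      exact one_ne_zero
    · simp only [if_neg h]
      exact Pool.Agent.W164.RC.lpoly_ne (hn2 v) (Pool.Agent.W164.RC.tr_poss v (htwo v h)) hs
  set P : HeightOneSpectrum (𝓞 K) → ℂ → ℂ := fun v s =>
    Pool.Agent.W164.RC.lpoly (a v) (ε' v) (Ideal.absNorm v.asIdeal) s with hP
  have hPdiff : ∀ v, Differentiable ℂ (P v) := fun v => Pool.Agent.W164.RC.lpoly_diff _ _ (hn2 v)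
  have hPne : ∀ v ∈ S, ∀ s : ℂ, 1 / 2 < s.re → P v s ≠ 0 := by
    intro v hv s hs
    exact Pool.Agent.W164.RC.lpoly_ne (hn2 v) (hpos v ((hmemS v).1 hv)) hs
  set R : ℂ → ℂ := fun s => ∏ v ∈ S, (g v s * (P v s)⁻¹) with hR
  have hRan : ∀ s : ℂ, 1 / 2 < s.re → AnalyticAt ℂ R s := by
    intro s hs
    rw [hR]
    apply Finset.analyticAt_fun_prod
    intro v hv
    exact ((hgdiff v).analyticAt s).mul (((hPdiff v).analyticAt s).inv (hPne v hv s hs))
  have hRne : ∀ s : ℂ, 1 / 2 < s.re → R s ≠ 0 := by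
    intro s hs
    rw [hR]
    simp only
    rw [Finset.prod_ne_zero_iff]
    intro v hv
    exact mul_ne_zero (hgne v s hs) (inv_ne_zero (hPne v hv s hs))
  have hzeros : ∀ δ t r : ℝ, off (fun s => F q s * R s) δ t r =
      Pool.Agent.A856.SE.Est (F q) δ t r := by
    intro δ t r
    ext s
    constructor
    · rintro ⟨h1, h3, h4, h5, h6⟩
      exact ⟨(mul_eq_zero.1 h1).resolve_right (hRne s h3), h3, h4, h5, h6⟩
    · rintro ⟨h1, h3, h4, h5, h6⟩
      refine ⟨?_, h3, h4, h5, h6⟩
      show F q s * R s = 0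
      rw [h1, zero_mul]
  have hord : ∀ s : ℂ, 1 / 2 < s.re →
      analyticOrderNatAt (fun s => F q s * R s) s = analyticOrderNatAt (F q) s := by
    intro s hs
    unfold analyticOrderNatAt
    rw [Pool.Agent.W164.RC.order_mul_ne (hF.analyticAt s) (hRan s hs) (hRne s hs)]
  have hofin : ∀ δ t r : ℝ, (off (fun s => F q s * R s) δ t r).Finite := by
    intro δ t r
    rw [hzeros]
    exact hEfin δ t r
  have hN : ∀ δ t r : ℝ, (Noff (fun s => F q s * R s) δ t r : ℝ) =
      Pool.Agent.A856.SE.NE (F q) δ t r := by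
    intro δ t r
    unfold Noff Pool.Agent.A856.SE.NE
    rw [finsum_mem_eq_finite_toFinset_sum _ (hofin δ t r),
      finsum_mem_eq_finite_toFinset_sum _ (hEfin δ t r)]
    push_cast
    have hfs : (hofin δ t r).toFinset = (hEfin δ t r).toFinset := by
      ext s
      rw [Set.Finite.mem_toFinset, Set.Finite.mem_toFinset, hzeros]
    rw [hfs]
    refine Finset.sum_congr rfl fun s hs => ?_
    rw [Set.Finite.mem_toFinset] at hs
    rw [hord s hs.2.1]
  refine ⟨fun s => F q s * R s, ⟨?_, ?_, hfin, ?_⟩, ⟨hofin, ?_, ?_, ?_⟩⟩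
  · intro s hs
    exact (hF.analyticAt s).mul (hRan s hs)
  · intro s hs
    have hs' : 1 / 2 < s.re := by linarith
    have h3 : HasProd (fun v : HeightOneSpectrum (𝓞 K) =>
        if v ∈ S then g v s * (P v s)⁻¹ else 1) (R s) := by
      have h4 : R s = ∏ v ∈ S, (if v ∈ S then g v s * (P v s)⁻¹ else 1) := by
        rw [hR]
        exact Finset.prod_congr rfl fun v hv => by rw [if_pos hv]
      rw [h4]
      apply hasProd_prod_of_ne_finset_one
      intro v hv
      rw [if_neg hv]
    have h5 := (hprod s hs).mul h3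
    refine h5.congr_fun ?_
    intro v
    unfold factor
    by_cases hv : v ∈ exceptional q ι D
    · rw [if_pos hv, if_pos ((hmemS v).2 hv), hlp]
      have hg1 := hgne v s hs'
      by_cases hvq : ι q ∈ v.asIdeal
      · rw [if_pos hvq]
        have : g v s = 1 := by rw [hg]; simp only [if_pos hvq]
        rw [this, one_mul, one_mul]
      · rw [if_neg hvq, Pool.Agent.W164.RC.eulerFactor_lpoly]
        have : g v s = Pool.Agent.W164.RC.lpoly (Pool.Agent.W164.RC.tr v) 1
            (Ideal.absNorm v.asIdeal) s := by rw [hg]; simp only [if_neg hvq]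
        rw [← this, ← mul_assoc, inv_mul_cancel₀ hg1, one_mul]
    · have hvS : v ∉ S := fun h => hv ((hmemS v).1 h)
      have hvq : ι q ∉ v.asIdeal := fun h => hv (Or.inl h)
      have hvD : (D : 𝓞 K) ∉ v.asIdeal := fun h => hv (Or.inr h)
      rw [if_neg hv, if_neg hvS, if_neg hvq, mul_one, Pool.Agent.W164.RC.eulerFactor_lpoly, hlp]
      have hmax : v.asIdeal.IsMaximal := v.isPrime.isMaximal v.ne_bot
      letI : Field (𝓞 K ⧸ v.asIdeal) := Ideal.Quotient.field v.asIdeal
      have hd4 : (Ideal.Quotient.mk v.asIdeal d) ^ 4 = (D : 𝓞 K ⧸ v.asIdeal) := by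
        rw [← map_pow, hd, map_intCast]
      have hd0 : Ideal.Quotient.mk v.asIdeal d ≠ 0 := by
        intro h0
        rw [h0, zero_pow (by norm_num)] at hd4
        apply hvD
        rw [← Ideal.Quotient.eq_zero_iff_mem, map_intCast]
        exact hd4.symm
      have hct := Pool.Agent.W164.RC.card_twist (Ideal.Quotient.mk v.asIdeal d) hd0
      rw [hd4] at hct
      rw [hct]
      rfl
  · refine ⟨fun s => F q s * ∏ v ∈ S, g v s, ?_, ?_⟩
    · exact hF.mul (Differentiable.fun_finsetProd fun v _ => hgdiff v)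
    · intro s hs
      have h3 : ∏ᶠ v ∈ exceptional q ι D, localPoly (a v) (ε' v) (Ideal.absNorm v.asIdeal) s =
          ∏ v ∈ S, P v s := by
        rw [← finprod_mem_coe_finset]
        have : (S : Set (HeightOneSpectrum (𝓞 K))) = exceptional q ι D := by
          ext v
          exact hmemS v
        rw [this]
        rfl
      rw [h3]
      show F q s * ∏ v ∈ S, g v s = F q s * R s * ∏ v ∈ S, P v s
      rw [hR, mul_assoc, ← Finset.prod_mul_distrib]
      congr 1
      refine Finset.prod_congr rfl fun v hv => ?_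
      rw [mul_assoc, inv_mul_cancel₀ (hPne v hv s hs), mul_one]
  · intro δ t hδ ht
    rw [hN]
    refine (Hd' δ t hδ ht).trans ?_
    apply mul_le_mul_of_nonneg_right _ (Real.rpow_nonneg (by linarith) _)
    have : 0 < C / κ := by positivity
    linarith
  · rw [hN]
    refine Hn'.trans ?_
    have hlog : 0 ≤ Real.log (Zsqrtd.norm q : ℝ) := Real.log_nonneg (by linarith)
    calc ε * κ * ((Zsqrtd.norm q : ℝ) * Real.log (Zsqrtd.norm q : ℝ))
        = ε * ((κ * (Zsqrtd.norm q : ℝ)) * Real.log (Zsqrtd.norm q : ℝ)) := by ring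
      _ ≤ ε * ((Nat.card art.range : ℝ) * Real.log (Zsqrtd.norm q : ℝ)) := by gcongr
  · intro t ht
    have hlog : 0 < Real.log (Zsqrtd.norm q : ℝ) := Real.log_pos (by linarith)
    have hr : 0 < 1 / Real.log (Zsqrtd.norm q : ℝ) := by positivity
    have hre : (1 + (t : ℂ) * I).re = 1 := by simp
    have him : (1 + (t : ℂ) * I).im = t := by simp
    have h1 : (analyticOrderNatAt (fun s => F q s * R s) (1 + (t : ℂ) * I) : ℝ) ≤
        (Noff (fun s => F q s * R s) 0 t (1 / Real.log (Zsqrtd.norm q : ℝ)) : ℝ) := by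
      by_cases h0 : F q (1 + (t : ℂ) * I) * R (1 + (t : ℂ) * I) = 0
      · have hm : (1 + (t : ℂ) * I) ∈
            off (fun s => F q s * R s) 0 t (1 / Real.log (Zsqrtd.norm q : ℝ)) := by
          refine ⟨h0, by rw [hre]; norm_num, by rw [hre]; norm_num, abs_nonneg _, ?_⟩
          rw [him, sub_self, abs_zero]
          exact hr.le
        have hle : analyticOrderNatAt (fun s => F q s * R s) (1 + (t : ℂ) * I) ≤
            Noff (fun s => F q s * R s) 0 t (1 / Real.log (Zsqrtd.norm q : ℝ)) := by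
          unfold Noff
          rw [finsum_mem_eq_finite_toFinset_sum _ (hofin 0 t _)]
          exact Finset.single_le_sum (f := fun s => analyticOrderNatAt (fun s => F q s * R s) s)
            (fun _ _ => Nat.zero_le _) ((hofin 0 t _).mem_toFinset.mpr hm)
        exact_mod_cast hle
      · have hA' : AnalyticAt ℂ (fun s => F q s * R s) (1 + (t : ℂ) * I) :=
          (hF.analyticAt _).mul (hRan _ (by rw [hre]; norm_num))
        have h3 : analyticOrderNatAt (fun s => F q s * R s) (1 + (t : ℂ) * I) = 0 := by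
          unfold analyticOrderNatAt
          rw [hA'.analyticOrderAt_eq_zero.mpr h0]
          rfl
        rw [h3]
        simp only [Nat.cast_zero]
        exact Nat.cast_nonneg _
    refine h1.trans ?_
    rw [hN]
    refine (Hd' 0 t le_rfl ht).trans ?_
    rw [mul_zero, sub_zero, Real.rpow_one, add_mul]
    have h4 : C * (Zsqrtd.norm q : ℝ) ≤ C / κ * (Nat.card art.range : ℝ) := by
      rw [div_mul_eq_mul_div, le_div_iff₀ hκ]
      calc C * (Zsqrtd.norm q : ℝ) * κ = C * (κ * (Zsqrtd.norm q : ℝ)) := by ring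
        _ ≤ C * (Nat.card art.range : ℝ) := by gcongr
    have h5 : 0 ≤ C * (Nat.card art.range : ℝ) := by positivity
    linarith

end Pool.Agent.Results.MP_fb225e_nt.SelbergRayClassFields
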