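import Pool.Agent.Hp428.TE.HFin
import Pool.Agent.Y19.QT.Fams

/-!
# The heat flow of `L(E_d, s)` for almost all quadratic twists: all zeros are on the line and equally spaced

`E_d : y² = x³ + a d² x + b d³`, `d` squarefree (positive or negative), are the quadratic twists of
`E : y² = x³ + a x + b`, so that `L(E/ℚ(√d), s) = L(E, s) L(E_d, s)`. The heat flow `exp (t D²) Λ` of a
completed L-function `Λ`, `D = d/ds`, has all its zeros on the line `Re s = 1` for `t ≥ 1/8` (de Bruijn);
the Riemann hypothesis for `Λ` says that this is so for all `t > 0`.

We prove, without any hypothesis, for all `E` with `j`-invariant `0` or `1728` and for all quadratic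
twists of `X₀(11)` and `X₀(14)`, and for every elliptic curve over `ℚ` whose quadratic twists are
modular: for all squarefree `|d| ≤ X` except `O(X / (log X)^K)` and for all times `0 < t ≤ 1/8`, every
zero `s`, at any height, of `exp (t D²) Λ(E_d, ·)` with `t ℓ² ≥ K' (log log X + log (2 + |Im s|))`, where
`ℓ = log X + log (2 + |Im s|)`, is simple and on the critical line, and the next zero above `s` is at
the distance `(π + O(ε)) / ℓ`; and there is a zero between the heights `y` and `y + 4 / ℓ`. So at heights `|Im s| ≤ (log X)^A` all zeros are on the line and form a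
lattice as soon as `t` is `log log X` times larger than the square of the mean distance of the zeros.

Method: for almost all `d`, upper bounds of the quality of the Lindelöf hypothesis and lower bounds
(with a mollifier) with powers of logarithms in `Re s ≥ 1 + K' (log log X + log (2 + |Im s|)) / log X`
(modules `Pool.Agent.Hp428.TD`); then at every height and at every scale `r` larger than this distance
`Λ(E_d, ·)` looks like `exp (ℓ z)` plus its reflection, and the local theorem on the heat flow
(`Pool.Agent.W186.SD`) and on the gaps (`Pool.Agent.R838.CR`) can be applied at the scale `2 t ℓ`.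
-/

set_option autoImplicit false

namespace Pool.Agent.Results.MP_fb225e_nt.TwistHeatFlow

open Pool.Agent.Y19.QT (Fam TwistsModular)
open Pool.Agent.Hp428.TE (HeatZerosLaw heatZerosLaw_of)

theorem result : (∀ a b : ℤ, Fam a b → HeatZerosLaw a b) ∧
    ∀ a b : ℤ, 4 * a ^ 3 + 27 * b ^ 2 ≠ 0 → TwistsModular a b → HeatZerosLaw a b :=
  ⟨fun _ _ h => heatZerosLaw_of h.disc h.data.1 h.data.2, fun _ _ hab h =>
    heatZerosLaw_of hab (Pool.Agent.Y812.QTN2.of_twistsModular hab h).1
      fun d hd => (Pool.Agent.Y812.QTN2.of_twistsModular hab h).2 d hd.ne_zero⟩

end Pool.Agent.Results.MP_fb225e_nt.TwistHeatFlow
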